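import Pool.Agent.W783.Perc.Stmts

/-! Part GOOD of the percolation project: existence of a good line. -/

set_option autoImplicit false
set_option linter.all false

open MeasureTheory Set

namespace Pool.Agent.W11.PC

open Pool.Agent.W783.PC

noncomputable section

variable {n : ℕ}

theorem G_mono {E : Set (Sym2 (V n))} {ω ω' : Cfg n} {R R' : Set (V n)} (hR : R ⊆ R')
    (hω : ∀ c, ω c = true → ω' c = true) : G E ω R ≤ G E ω' R' := by
  intro x y h
  obtain ⟨h1, h2, h3, h4, h5, h6, h7⟩ := h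
  exact ⟨h1, hR h2, hR h3, h4, hω _ h5, hω _ h6, hω _ h7⟩

theorem reach_mono {E : Set (Sym2 (V n))} {ω ω' : Cfg n} {R R' : Set (V n)} (hR : R ⊆ R')
    (hω : ∀ c, ω c = true → ω' c = true) {x y : V n} (h : (G E ω R).Reachable x y) :
    (G E ω' R').Reachable x y := h.mono (G_mono hR hω)

theorem cl_sub (E : Set (Sym2 (V n))) (ω : Cfg n) (R : Set (V n)) (x : V n) :
    cl E ω R x ⊆ insert x R := by
  intro y hy
  have h : (G E ω R).Reachable x y := hy
  rw [SimpleGraph.reachable_iff_reflTransGen] at h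
  rcases Relation.ReflTransGen.cases_tail h with h | ⟨z, _, hz⟩
  · left; exact h
  · right; exact hz.2.2.1

theorem cl_finite {E : Set (Sym2 (V n))} {ω : Cfg n} {R : Set (V n)} (hR : R.Finite) (x : V n) :
    (cl E ω R x).Finite := (hR.insert x).subset (cl_sub E ω R x)

theorem cl_mono {E : Set (Sym2 (V n))} {ω ω' : Cfg n} {R R' : Set (V n)} (hR : R ⊆ R')
    (hω : ∀ c, ω c = true → ω' c = true) (x : V n) : cl E ω R x ⊆ cl E ω' R' x :=
  fun _ hy => reach_mono hR hω hy

theorem DepOn.mono {ι : Type} {A : Set (ι → Bool)} {S T : Set ι} (h : DepOn A S) (hST : S ⊆ T) :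
    DepOn A T := fun ω ω' h1 => h ω ω' fun c hc => h1 c (hST hc)

theorem DepOn.inter {ι : Type} {A B : Set (ι → Bool)} {S : Set ι} (h : DepOn A S) (h' : DepOn B S) :
    DepOn (A ∩ B) S := fun ω ω' h1 => and_congr (h ω ω' h1) (h' ω ω' h1)

theorem DepOn.compl {ι : Type} {A : Set (ι → Bool)} {S : Set ι} (h : DepOn A S) :
    DepOn Aᶜ S := fun ω ω' h1 => not_congr (h ω ω' h1)

/-- big clusters -/
def Bg (E : Set (Sym2 (V n))) (a0 : ℕ) (R : Set (V n)) (x : V n) : Set (Cfg n) :=
  {ω | a0 ≤ (cl E ω R x).ncard}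

theorem Bg_dep (hdep : S_reach_dep) (E : Set (Sym2 (V n))) (a0 : ℕ) (R : Set (V n)) (x : V n) :
    DepOn (Bg E a0 R x) (Int' R) := by
  intro ω ω' h
  have : cl E ω R x = cl E ω' R x := by
    ext y
    exact hdep n E R x y ω ω' fun c hc => h c hc.1
  show a0 ≤ _ ↔ a0 ≤ _
  rw [this]

theorem reach_dep' (hdep : S_reach_dep) (E : Set (Sym2 (V n))) (R : Set (V n)) (x y : V n) :
    DepOn {ω : Cfg n | (G E ω R).Reachable x y} (Int' R) :=
  DepOn.mono (hdep n E R x y) fun _ hc => hc.1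

theorem meas_of_dep (hmeas : S_depmeas) (hfin : S_int_fin) {R : Set (V n)} (hR : R.Finite)
    {A : Set (Cfg n)} (h : DepOn A (Int' R)) : MeasurableSet A := by
  classical
  refine hmeas _ (hfin n R hR).toFinset A ?_
  rw [Set.Finite.coe_toFinset]
  exact h

theorem shift_big (hpm : S_shift_pm) (hG : S_shift_G) (hE : S_shift_E) (hdep : S_reach_dep)
    (hmeas : S_depmeas) (hfin : S_int_fin) (m : ℕ) (a p : unitInterval) (β : NNReal) (s : ℝ)
    (z : V n) (hz : ∀ i, (m : ℤ) ∣ z.2 i) (R0 R : Set (V n)) (hR0 : R0.Finite) (hR : R.Finite)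
    (hsub : {v | v - z ∈ R0} ⊆ R) (a0 : ℕ) :
    (pm (prob a p β s m)).real (Bg (EdI m) a0 R0 0) ≤ (pm (prob a p β s m)).real (Bg (EdI m) a0 R z) := by
  have hm : MeasurableSet (Bg (EdI m) a0 R0 (0 : V n)) := meas_of_dep hmeas hfin hR0 (Bg_dep hdep _ _ _ _)
  have h1 := hpm n m a p β s z hz _ hm
  have h2 : (pm (prob a p β s m)).real (Bg (EdI m) a0 R0 (0 : V n)) =
      (pm (prob a p β s m)).real {ω : Cfg n | (fun c => ω (sh z c)) ∈ Bg (EdI m) a0 R0 (0 : V n)} := by
    unfold Measure.real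
    rw [h1]
  rw [h2]
  apply measureReal_mono _ (measure_ne_top _ _)
  intro ω hω
  have hω' : a0 ≤ (cl (EdI m) (fun c => ω (sh z c)) R0 (0 : V n)).ncard := hω
  refine le_trans hω' ?_
  apply Set.ncard_le_ncard_of_injOn (fun y => y + z) (ht := cl_finite hR z)
  · intro y hy
    have h3 := (hG n (EdI m) z (fun x y => (hE n m 0 z hz x y).2) ω R0 0 y).1 hy
    rw [zero_add] at h3
    exact reach_mono hsub (fun _ h => h) h3
  · intro y _ y' _ h
    exact add_right_cancel h

/-- The coordinates of the straight path. -/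
def FF (m : ℕ) (x : V n) : Finset (Ix n) := by
  classical
  exact (Finset.range (m + 1)).image (fun j : ℕ => (Sum.inl (upv x j) : Ix n)) ∪
    (Finset.range m).image (fun j : ℕ => (Sum.inr s(upv x j, upv x (j + 1)) : Ix n))

theorem mem_FF {m : ℕ} {x : V n} {c : Ix n} : c ∈ FF m x ↔
    (∃ j : ℕ, j ≤ m ∧ Sum.inl (upv x j) = c) ∨ ∃ j : ℕ, j < m ∧ Sum.inr s(upv x j, upv x (j + 1)) = c := by
  classical
  unfold FF
  rw [Finset.mem_union, Finset.mem_image, Finset.mem_image]
  simp only [Finset.mem_range, Nat.lt_succ_iff]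

theorem Fop_iff {m : ℕ} {x : V n} {ω : Cfg n} : Fop m ω x ↔ ∀ c ∈ FF m x, ω c = true := by
  constructor
  · rintro ⟨h1, h2⟩ c hc
    rw [mem_FF] at hc
    rcases hc with ⟨j, hj, rfl⟩ | ⟨j, hj, rfl⟩
    · exact h1 j hj
    · exact h2 j hj
  · intro h
    exact ⟨fun j hj => h _ (mem_FF.2 (Or.inl ⟨j, hj, rfl⟩)), fun j hj => h _ (mem_FF.2 (Or.inr ⟨j, hj, rfl⟩))⟩

theorem NN_upv (hn : 1 ≤ n) (x : V n) (j : ℤ) : NN (upv x j) (upv x (j + 1)) := by
  unfold NN upv
  have h : ∀ i : Fin n, |(x.2 + j • e1 n) i - (x.2 + (j + 1) • e1 n) i| = if i = ⟨0, hn⟩ then 1 else 0 := by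
    intro i
    simp only [Pi.add_apply, Pi.smul_apply, smul_eq_mul, e1]
    by_cases hi : (i : ℕ) = 0
    · have : i = ⟨0, hn⟩ := Fin.ext hi
      rw [if_pos hi, if_pos this]
      have : x.2 i + j * 1 - (x.2 i + (j + 1) * 1) = -1 := by ring
      rw [this]; rfl
    · have : i ≠ ⟨0, hn⟩ := fun h => hi (congrArg Fin.val h)
      rw [if_neg hi, if_neg this]
      simp
  simp only [h]
  simp

theorem FF_prod (hn : 1 ≤ n) (m m' : ℕ) (a p : unitInterval) (β : NNReal) (s : ℝ) (x : V n) :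
    (a : ℝ) ^ (m + 1) * (p : ℝ) ^ m ≤ ∏ c ∈ FF m x, (prob (n := n) a p β s m' c : ℝ) := by
  classical
  unfold FF
  rw [Finset.prod_union]
  · apply mul_le_mul _ _ (pow_nonneg p.2.1 _) _
    · rw [Finset.prod_congr rfl (g := fun _ => (a : ℝ))]
      · rw [Finset.prod_const]
        apply pow_le_pow_of_le_one a.2.1 a.2.2
        exact Finset.card_image_le.trans (by simp)
      · intro c hc
        rw [Finset.mem_image] at hc
        obtain ⟨j, _, rfl⟩ := hc
        rfl
    · rw [Finset.prod_congr rfl (g := fun _ => (p : ℝ))]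
      · rw [Finset.prod_const]
        apply pow_le_pow_of_le_one p.2.1 p.2.2
        exact Finset.card_image_le.trans (by simp)
      · intro c hc
        rw [Finset.mem_image] at hc
        obtain ⟨j, _, rfl⟩ := hc
        have : isNN s(upv x (j : ℤ), upv x ((j : ℤ) + 1)) := ⟨_, _, rfl, NN_upv hn x j⟩
        simp only [prob]
        rw [if_pos this]
    · apply Finset.prod_nonneg
      intro c _
      exact (prob (n := n) a p β s m' c).2.1
  · rw [Finset.disjoint_left]
    intro c hc hc'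
    rw [Finset.mem_image] at hc hc'
    obtain ⟨j, _, rfl⟩ := hc
    obtain ⟨j', _, h⟩ := hc'
    exact absurd h (by simp)

/-- marked vertices -/
def Mk (E : Set (Sym2 (V n))) (m a0 : ℕ) (R : Set (V n)) (x : V n) : Set (Cfg n) :=
  Bg E a0 R x ∩ {ω | Fop m ω x}

theorem Bg_inc (E : Set (Sym2 (V n))) (a0 : ℕ) {R : Set (V n)} (hR : R.Finite) (x : V n) :
    Inc (Bg E a0 R x) := by
  intro ω ω' h hω
  exact le_trans hω (Set.ncard_le_ncard (cl_mono (le_refl R) h x) (cl_finite hR x))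

theorem Mk_prob (hopen : S_open) (hn : 1 ≤ n) (hdep : S_reach_dep) (hmeas : S_depmeas)
    (hfin : S_int_fin) (m a0 : ℕ) (a p : unitInterval) (β : NNReal) (s : ℝ) (x : V n)
    {R : Set (V n)} (hR : R.Finite) (E : Set (Sym2 (V n))) :
    (a : ℝ) ^ (m + 1) * (p : ℝ) ^ m * (pm (prob a p β s m)).real (Bg E a0 R x) ≤
      (pm (prob a p β s m)).real (Mk E m a0 R x) := by
  have h1 := hopen _ (prob (n := n) a p β s m) (FF m x) _ (Bg_inc E a0 hR x)
    (meas_of_dep hmeas hfin hR (Bg_dep hdep _ _ _ _))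
  have h2 : {ω : Cfg n | ∀ c ∈ FF m x, ω c = true} = {ω | Fop m ω x} := by
    ext ω; exact Fop_iff.symm
  rw [h2] at h1
  refine le_trans ?_ h1
  exact mul_le_mul_of_nonneg_right (FF_prod hn m m a p β s x) measureReal_nonneg

theorem Fop_dep (m : ℕ) (x : V n) (R : Set (V n)) (h : ∀ j : ℕ, j ≤ m → upv x j ∈ R) :
    DepOn {ω : Cfg n | Fop m ω x} (Int' R) := by
  have key : ∀ ω ω' : Cfg n, (∀ c ∈ Int' R, ω c = ω' c) → Fop m ω x → Fop m ω' x := by
    rintro ω ω' hω ⟨h1, h2⟩
    refine ⟨fun j hj => ?_, fun j hj => ?_⟩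
    · rw [← hω _ (Or.inl ⟨_, h j hj, rfl⟩)]
      exact h1 j hj
    · rw [← hω _ (Or.inr ⟨s(upv x j, upv x (j + 1)), ?_, rfl⟩)]
      · exact h2 j hj
      · intro y hy
        rw [Sym2.mem_iff] at hy
        rcases hy with rfl | rfl
        · exact h j hj.le
        · have := h (j + 1) hj
          push_cast at this
          exact this
  intro ω ω' hω
  exact ⟨key ω ω' hω, key ω' ω fun c hc => (hω c hc).symm⟩

theorem Mk_dep (hdep : S_reach_dep) (E : Set (Sym2 (V n))) (m a0 : ℕ) (R : Set (V n)) (x : V n)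
    (h : ∀ j : ℕ, j ≤ m → upv x j ∈ R) : DepOn (Mk E m a0 R x) (Int' R) :=
  DepOn.inter (Bg_dep hdep _ _ _ _) (Fop_dep m x R h)

/-- A Markov type inequality. -/
theorem markov {Ω : Type} [MeasurableSpace Ω] (P : Measure Ω) [IsProbabilityMeasure P] {κ : Type}
    (Q : Finset κ) (A : κ → Set Ω) (hA : ∀ q ∈ Q, MeasurableSet (A q)) [∀ ω, DecidablePred fun q => ω ∈ A q]
    (c : ℝ) (hc : 0 ≤ c) :
    ∑ q ∈ Q, P.real (A q) ≤ c + Q.card * P.real {ω | c < ((Q.filter fun q => ω ∈ A q).card : ℝ)} := by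
  classical
  have h1 : ∀ q ∈ Q, P.real (A q) = ∫ ω, (A q).indicator (fun _ => (1 : ℝ)) ω ∂P := by
    intro q hq
    rw [integral_indicator_const _ (hA q hq)]
    simp
  rw [Finset.sum_congr rfl h1, ← integral_finset_sum]
  swap
  · intro q hq
    exact (integrable_const _).indicator (hA q hq)
  have h2 : ∀ ω, ∑ q ∈ Q, (A q).indicator (fun _ => (1 : ℝ)) ω = ((Q.filter fun q => ω ∈ A q).card : ℝ) := by
    intro ω
    rw [Finset.card_filter]
    push_cast
    apply Finset.sum_congr rfl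
    intro q _
    rw [Set.indicator_apply]
  have hms : MeasurableSet {ω | c < ((Q.filter fun q => ω ∈ A q).card : ℝ)} := by
    have : Measurable fun ω => ((Q.filter fun q => ω ∈ A q).card : ℝ) := by
      have h3 : (fun ω => ((Q.filter fun q => ω ∈ A q).card : ℝ)) =
          fun ω => ∑ q ∈ Q, (A q).indicator (fun _ => (1 : ℝ)) ω := by
        funext ω; exact (h2 ω).symm
      rw [h3]
      exact Finset.measurable_fun_sum _ fun q hq => measurable_const.indicator (hA q hq)
    exact measurableSet_lt measurable_const this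
  have h4 : ∫ ω, (c + {ω | c < ((Q.filter fun q => ω ∈ A q).card : ℝ)}.indicator (fun _ => (Q.card : ℝ)) ω) ∂P =
      c + Q.card * P.real {ω | c < ((Q.filter fun q => ω ∈ A q).card : ℝ)} := by
    rw [integral_add (integrable_const _) ((integrable_const _).indicator hms), integral_const,
      integral_indicator_const _ hms]
    simp [mul_comm]
  rw [← h4]
  apply integral_mono
  · apply integrable_finset_sum
    intro q hq
    exact (integrable_const _).indicator (hA q hq)
  · exact (integrable_const _).add ((integrable_const _).indicator hms)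
  · intro ω
    show ∑ q ∈ Q, (A q).indicator (fun _ => (1 : ℝ)) ω ≤ c + _
    rw [h2]
    rw [Set.indicator_apply]
    split_ifs with h
    · have : ((Q.filter fun q => ω ∈ A q).card : ℝ) ≤ Q.card := by
        exact_mod_cast Finset.card_filter_le _ _
      linarith
    · have : ¬ (c < ((Q.filter fun q => ω ∈ A q).card : ℝ)) := h
      linarith [not_lt.1 this]

end

end Pool.Agent.W11.PC
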