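import Pool.Agent.W783.Perc.Stmts

/-! Part GOOD of the percolation project: the calculus. -/

set_option autoImplicit false
set_option linter.all false

open MeasureTheory Set

namespace Pool.Agent.W11.PC

open Pool.Agent.W783.PC

theorem an (s : ℝ) (h1 : 1 < s) (h2 : s < 2) (β η δ : ℝ) (hβ : 0 < β) (hη : 0 < η) (hδ : 0 < δ)
    (n m : ℕ) (hn : 1 ≤ n) (hm : 1 ≤ m) :
    ∃ A : ℕ, 1 ≤ A ∧ ∃ N1 : ℕ, ∀ N ≥ N1, 1 ≤ N ∧ m ≤ Mof s N ∧
      (2 : ℝ) ^ ((5 * N * (5 * Mof s N) ^ n + 5 * N * (5 * Mof s N) ^ n) / (A * Mof s N)) *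
        Real.exp (-(β * (6 * (N : ℝ)) ^ (-s) *
          (⌊η * ((Mof s N / m : ℕ) : ℝ) ^ n * (N : ℝ) ^ 2⌋₊ : ℝ))) ≤ δ := by
  obtain ⟨n', rfl⟩ : ∃ n', n = n' + 1 := ⟨n - 1, by omega⟩
  have hm0 : (0 : ℝ) < m := by exact_mod_cast hm
  set c : ℝ := β * 6 ^ (-s) * η / (2 * (2 * m) ^ (n' + 1)) with hc
  have h6 : (0 : ℝ) < 6 ^ (-s) := Real.rpow_pos_of_pos (by norm_num) _
  have hc0 : 0 < c := by positivity
  set A : ℕ := ⌈20 * 5 ^ (n' + 1) / c⌉₊ + 1 with hA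
  have hA1 : (20 * 5 ^ (n' + 1) / c : ℝ) ≤ A := by
    rw [hA]; push_cast
    linarith [Nat.le_ceil (20 * 5 ^ (n' + 1) / c : ℝ)]
  have hA0 : (0 : ℝ) < A := by rw [hA]; positivity
  refine ⟨A, by omega, ?_⟩
  have hev : ∀ᶠ N : ℕ in Filter.atTop, 1 ≤ N ∧ (m : ℝ) ≤ (N : ℝ) ^ (s - 1) ∧
      β + Real.log (1 / δ) ≤ (c / 2) * N := by
    have e1 : ∀ᶠ N : ℕ in Filter.atTop, 1 ≤ N := Filter.eventually_ge_atTop 1
    have e2 : ∀ᶠ N : ℕ in Filter.atTop, (m : ℝ) ≤ (N : ℝ) ^ (s - 1) :=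
      ((tendsto_rpow_atTop (by linarith : 0 < s - 1)).comp tendsto_natCast_atTop_atTop).eventually_ge_atTop _
    have e3 : ∀ᶠ N : ℕ in Filter.atTop, β + Real.log (1 / δ) ≤ (c / 2) * N :=
      ((tendsto_natCast_atTop_atTop (R := ℝ)).const_mul_atTop (by positivity : 0 < c / 2)).eventually_ge_atTop _
    filter_upwards [e1, e2, e3] with N a b d using ⟨a, b, d⟩
  obtain ⟨N1, hN1⟩ := Filter.eventually_atTop.1 hev
  refine ⟨N1, fun N hN => ?_⟩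
  obtain ⟨hN0, hNm, hNb⟩ := hN1 N hN
  have hNr : (1 : ℝ) ≤ N := by exact_mod_cast hN0
  have hNpos : (0 : ℝ) < N := by linarith
  set M := Mof s N with hM
  have hMm : m ≤ M := by
    rw [hM]; unfold Mof
    exact Nat.le_floor hNm
  refine ⟨hN0, hMm, ?_⟩
  have hM1 : 1 ≤ M := by omega
  have hMr : (1 : ℝ) ≤ M := by exact_mod_cast hM1
  have hMx : (N : ℝ) ^ (s - 1) ≤ 2 * M := by
    have := Nat.lt_floor_add_one ((N : ℝ) ^ (s - 1))
    have h3 : ((⌊(N : ℝ) ^ (s - 1)⌋₊ : ℕ) : ℝ) = M := rfl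
    rw [h3] at this
    linarith
  set K := M / m with hK
  have hK1 : 1 ≤ K := (Nat.one_le_div_iff (by omega)).2 hMm
  have hKr : (M : ℝ) / (2 * m) ≤ K := by
    rw [div_le_iff₀ (by positivity)]
    have h3 : M < m * (K + 1) := Nat.lt_mul_div_succ M (by omega)
    have h4 : M ≤ 2 * m * K := by nlinarith
    have h5 : (M : ℝ) ≤ 2 * m * K := by exact_mod_cast h4
    linarith
  -- the exponential factor
  set w : ℝ := β * (6 * (N : ℝ)) ^ (-s) with hw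
  have hw0 : 0 ≤ w := by positivity
  have hw1 : w ≤ β := by
    rw [hw]
    have : (6 * (N : ℝ)) ^ (-s) ≤ 1 := Real.rpow_le_one_of_one_le_of_nonpos (by linarith) (by linarith)
    nlinarith
  set Y : ℝ := η * (K : ℝ) ^ (n' + 1) * (N : ℝ) ^ 2 with hY
  have hfl : Y - 1 ≤ (⌊Y⌋₊ : ℝ) := by linarith [Nat.lt_floor_add_one Y]
  have hwX : c * (N * (M : ℝ) ^ n') - β ≤ w * (⌊Y⌋₊ : ℝ) := by
    have h3 : w * (Y - 1) ≤ w * (⌊Y⌋₊ : ℝ) := mul_le_mul_of_nonneg_left hfl hw0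
    have h4 : c * (N * (M : ℝ) ^ n') ≤ w * Y := by
      have h5 : ((M : ℝ) / (2 * m)) ^ (n' + 1) ≤ (K : ℝ) ^ (n' + 1) :=
        pow_le_pow_left₀ (by positivity) hKr _
      have h7 : w * (η * ((M : ℝ) / (2 * m)) ^ (n' + 1) * (N : ℝ) ^ 2) ≤ w * Y := by
        apply mul_le_mul_of_nonneg_left _ hw0
        rw [hY]
        apply mul_le_mul_of_nonneg_right _ (by positivity)
        exact mul_le_mul_of_nonneg_left h5 hη.le
      refine le_trans ?_ h7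
      have h8 : (6 * (N : ℝ)) ^ (-s) = 6 ^ (-s) * (N : ℝ) ^ (-s) := Real.mul_rpow (by norm_num) hNpos.le
      have h9 : (N : ℝ) ^ (-s) * (N : ℝ) ^ 2 = N * (N : ℝ) ^ (1 - s) := by
        rw [← Real.rpow_natCast, ← Real.rpow_add hNpos]
        nth_rewrite 2 [← Real.rpow_one (N : ℝ)]
        rw [← Real.rpow_add hNpos]
        congr 1
        push_cast; ring
      have h10 : (1 : ℝ) / 2 ≤ (N : ℝ) ^ (1 - s) * M := by
        have h11 : (N : ℝ) ^ (1 - s) * (N : ℝ) ^ (s - 1) = 1 := by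
          rw [← Real.rpow_add hNpos]
          have : (1 - s) + (s - 1) = 0 := by ring
          rw [this, Real.rpow_zero]
        have h12 : (N : ℝ) ^ (1 - s) * (N : ℝ) ^ (s - 1) ≤ (N : ℝ) ^ (1 - s) * (2 * M) :=
          mul_le_mul_of_nonneg_left hMx (by positivity)
        linarith
      rw [hw, h8, hc]
      have h13 : β * (6 ^ (-s) * (N : ℝ) ^ (-s)) * (η * ((M : ℝ) / (2 * m)) ^ (n' + 1) * (N : ℝ) ^ 2) =
          β * 6 ^ (-s) * η / ((2 * m) ^ (n' + 1)) * ((N : ℝ) ^ (-s) * (N : ℝ) ^ 2) * (M : ℝ) ^ (n' + 1) := by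
        rw [div_pow]; ring
      rw [h13, h9]
      have h14 : β * 6 ^ (-s) * η / (2 * (2 * m) ^ (n' + 1)) * (N * (M : ℝ) ^ n') =
          β * 6 ^ (-s) * η / ((2 * m) ^ (n' + 1)) * (N * (M : ℝ) ^ n') * (1 / 2) := by
        field_simp
      have h15 : β * 6 ^ (-s) * η / ((2 * m) ^ (n' + 1)) * (N * (N : ℝ) ^ (1 - s)) * (M : ℝ) ^ (n' + 1) =
          β * 6 ^ (-s) * η / ((2 * m) ^ (n' + 1)) * (N * (M : ℝ) ^ n') * ((N : ℝ) ^ (1 - s) * M) := by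
        ring
      rw [h14, h15]
      exact mul_le_mul_of_nonneg_left h10 (by positivity)
    have h16 : w * (Y - 1) = w * Y - w := by ring
    linarith
  -- the entropy factor
  have hent : (2 : ℝ) ^ ((5 * N * (5 * M) ^ (n' + 1) + 5 * N * (5 * M) ^ (n' + 1)) / (A * M)) ≤
      Real.exp (c / 2 * (N * (M : ℝ) ^ n')) := by
    set e := (5 * N * (5 * M) ^ (n' + 1) + 5 * N * (5 * M) ^ (n' + 1)) / (A * M) with he
    have h3 : (2 : ℝ) ^ e ≤ Real.exp e := by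
      have h4 : (2 : ℝ) ≤ Real.exp 1 := by
        have := Real.add_one_le_exp (1 : ℝ)
        linarith
      calc (2 : ℝ) ^ e ≤ (Real.exp 1) ^ e := pow_le_pow_left₀ (by norm_num) h4 _
        _ = Real.exp e := by rw [← Real.exp_nat_mul, mul_one]
    refine h3.trans (Real.exp_le_exp.2 ?_)
    have h5 : (e : ℝ) ≤ ((5 * N * (5 * M) ^ (n' + 1) + 5 * N * (5 * M) ^ (n' + 1) : ℕ) : ℝ) / ((A * M : ℕ) : ℝ) :=
      Nat.cast_div_le
    refine h5.trans ?_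
    have h6' : (0 : ℝ) < ((A * M : ℕ) : ℝ) := by
      push_cast; positivity
    rw [div_le_iff₀ h6']
    push_cast
    have h7 : 20 * 5 ^ (n' + 1) ≤ A * c := by
      rw [div_le_iff₀ hc0] at hA1
      exact hA1
    have h8 : (5 * (N : ℝ) * (5 * M) ^ (n' + 1) + 5 * N * (5 * M) ^ (n' + 1)) =
        (20 * 5 ^ (n' + 1)) * (1 / 2 * (N * (M : ℝ) ^ n') * M) := by
      rw [mul_pow]; ring
    have h9 : c / 2 * (N * (M : ℝ) ^ n') * (A * M) = (A * c) * (1 / 2 * (N * (M : ℝ) ^ n') * M) := by ring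
    rw [h8, h9]
    exact mul_le_mul_of_nonneg_right h7 (by positivity)
  have hfin : (2 : ℝ) ^ ((5 * N * (5 * M) ^ (n' + 1) + 5 * N * (5 * M) ^ (n' + 1)) / (A * M)) *
      Real.exp (-(w * (⌊Y⌋₊ : ℝ))) ≤ Real.exp (c / 2 * (N * (M : ℝ) ^ n')) * Real.exp (-(c * (N * (M : ℝ) ^ n') - β)) := by
    apply mul_le_mul hent _ (Real.exp_pos _).le (Real.exp_pos _).le
    exact Real.exp_le_exp.2 (by linarith)
  refine hfin.trans ?_
  rw [← Real.exp_add]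
  have h3 : (N : ℝ) ≤ N * (M : ℝ) ^ n' := by
    have : (1 : ℝ) ≤ (M : ℝ) ^ n' := one_le_pow₀ hMr
    nlinarith
  have h4 : c / 2 * (N : ℝ) ≤ c / 2 * (N * (M : ℝ) ^ n') := mul_le_mul_of_nonneg_left h3 (by positivity)
  calc Real.exp (c / 2 * (N * (M : ℝ) ^ n') + -(c * (N * (M : ℝ) ^ n') - β))
      ≤ Real.exp (-(Real.log (1 / δ))) := Real.exp_le_exp.2 (by linarith)
    _ = δ := by
      rw [one_div, Real.log_inv, neg_neg, Real.exp_log hδ]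

end Pool.Agent.W11.PC
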