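import Pool.Agent.W11.PC.Good
import Pool.Agent.W11.PC.GoodAn

/-! Part GOOD of the percolation project: the main proof. -/

set_option autoImplicit false
set_option linter.all false

open MeasureTheory Set

namespace Pool.Agent.W11.PC

open Pool.Agent.W783.PC

noncomputable section

variable {n : ℕ}

/-- boxes as finite sets -/
def BF (n : ℕ) (l r L R : ℤ) : Finset (V n) :=
  Finset.Ico l r ×ˢ Fintype.piFinset (fun _ : Fin n => Finset.Ico L R)

theorem mem_BF {l r L R : ℤ} {x : V n} :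
    x ∈ BF n l r L R ↔ (l ≤ x.1 ∧ x.1 < r) ∧ ∀ i, L ≤ x.2 i ∧ x.2 i < R := by
  unfold BF
  rw [Finset.mem_product, Finset.mem_Ico, Fintype.mem_piFinset]
  simp only [Finset.mem_Ico]

theorem card_BF (l r L R : ℤ) : (BF n l r L R).card = (r - l).toNat * (R - L).toNat ^ n := by
  unfold BF
  rw [Finset.card_product, Int.card_Ico, Fintype.card_piFinset]
  simp [Int.card_Ico]

/-- transverse offsets -/
def uu (m K : ℕ) (k : Fin n → Fin K) : Fin n → ℤ := fun i => (m : ℤ) * ((k i : ℕ) : ℤ)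

theorem uu_nonneg (m K : ℕ) (k : Fin n → Fin K) (i : Fin n) : 0 ≤ uu m K k i := by
  unfold uu; positivity

theorem uu_lt {m M : ℕ} (hm : 1 ≤ m) (k : Fin n → Fin (M / m)) (i : Fin n) : uu m (M / m) k i < M := by
  unfold uu
  have h1 := (k i).2
  have h2 : m * (M / m) ≤ M := Nat.mul_div_le M m
  have h3 : m * (k i : ℕ) < m * (M / m) := Nat.mul_lt_mul_of_pos_left h1 (by omega)
  exact_mod_cast h3.trans_le h2

/-- pairs -/
def pr (m K N : ℕ) (j : (Fin n → Fin K) × (Fin N × Fin N)) : V n × V n :=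
  ((((j.2.1 : ℕ) : ℤ), uu m K j.1), ((5 * (N : ℤ) + ((j.2.2 : ℕ) : ℤ)), uu m K j.1))

theorem pr_inj {m K N : ℕ} (hm : 1 ≤ m) : Function.Injective (pr (n := n) m K N) := by
  rintro ⟨k, t, t'⟩ ⟨k2, t2, t2'⟩ h
  unfold pr at h
  simp only [Prod.mk.injEq] at h
  obtain ⟨⟨h1, h2⟩, h3, _⟩ := h
  have hk : k = k2 := by
    funext i
    have := congrFun h2 i
    unfold uu at this
    have hm' : (m : ℤ) ≠ 0 := by exact_mod_cast (by omega : m ≠ 0)
    have h5 := mul_left_cancel₀ hm' this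
    apply Fin.ext
    exact_mod_cast h5
  have ht : t = t2 := Fin.ext (by exact_mod_cast h1)
  have ht' : t' = t2' := Fin.ext (by omega)
  rw [hk, ht, ht']

theorem upv_mem {l r L R : ℤ} {m : ℕ} {x : V n} (h1 : l ≤ x.1 ∧ x.1 < r)
    (h2 : ∀ i, L ≤ x.2 i ∧ x.2 i + m < R) (j : ℕ) (hj : j ≤ m) : upv x j ∈ BF n l r L R := by
  rw [mem_BF]
  refine ⟨h1, fun i => ?_⟩
  obtain ⟨h3, h4⟩ := h2 i
  have h5 : (upv x j).2 i = x.2 i + j * e1 n i := by
    unfold upv
    simp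
  rw [h5]
  unfold e1
  split_ifs
  · constructor <;> omega
  · constructor <;> omega

theorem prob_long {m : ℕ} (a p : unitInterval) (β : NNReal) (s : ℝ) (hs : 1 < s) {x y : V n}
    (hx : x.2 = y.2) (hd : ∀ i, (m : ℤ) ∣ x.2 i) (N : ℕ) (hN : 1 ≤ N)
    (h1 : 2 ≤ (x.1 - y.1).natAbs) (h2 : (x.1 - y.1).natAbs ≤ 6 * N) :
    s(x, y) ∈ (EdI m : Set (Sym2 (V n))) ∧
      1 - (prob (n := n) a p β s m (Sum.inr s(x, y)) : ℝ) ≤ Real.exp (-((β : ℝ) * (6 * (N : ℝ)) ^ (-s))) := by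
  have hlg : isLg m s(x, y) := ⟨x, y, rfl, hx, hd, h1⟩
  refine ⟨Or.inr hlg, ?_⟩
  have hnn : ¬ isNN s(x, y) := by
    rintro ⟨x', y', h, hNN⟩
    unfold NN at hNN
    have h3 : 0 ≤ ∑ i, |x'.2 i - y'.2 i| := Finset.sum_nonneg fun i _ => abs_nonneg _
    have h4 : |x'.1 - y'.1| ≤ 1 := by omega
    rw [Sym2.eq_iff] at h
    rcases h with ⟨rfl, rfl⟩ | ⟨rfl, rfl⟩
    · rw [abs_le] at h4; omega
    · rw [abs_le] at h4; omega
  have h5 : (prob (n := n) a p β s m (Sum.inr s(x, y)) : ℝ) =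
      1 - Real.exp (-((β : ℝ) * ((x.1 - y.1).natAbs : ℝ) ^ (-s))) := by
    simp only [prob]
    rw [if_neg hnn, if_pos hlg]
    rfl
  rw [h5, sub_sub_cancel]
  apply Real.exp_le_exp.2
  apply neg_le_neg
  apply mul_le_mul_of_nonneg_left _ β.2
  have h6 : (0 : ℝ) < ((x.1 - y.1).natAbs : ℝ) := by
    exact_mod_cast (by omega : 0 < (x.1 - y.1).natAbs)
  apply Real.rpow_le_rpow_of_nonpos h6 _ (by linarith)
  exact_mod_cast h2

theorem CB_finite (N M : ℕ) : (CB N M : Set (V n)).Finite := by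
  apply (BF n (-N) (N + 1) (-M) (M + 1)).finite_toSet.subset
  intro x hx
  obtain ⟨h1, h2⟩ := hx
  rw [Finset.mem_coe, mem_BF]
  rw [abs_le] at h1
  refine ⟨by omega, fun i => ?_⟩
  have := h2 i
  rw [abs_le] at this
  omega

theorem Int'_mono {R R' : Set (V n)} (h : R ⊆ R') : Int' R ⊆ Int' R' := by
  rintro c (⟨x, hx, rfl⟩ | ⟨e, he, rfl⟩)
  · exact Or.inl ⟨x, h hx, rfl⟩
  · exact Or.inr ⟨e, fun y hy => h (he y hy), rfl⟩

theorem Int'_disjoint {R R' : Set (V n)} (h : Disjoint R R') : Disjoint (Int' R) (Int' R') := by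
  rw [Set.disjoint_left] at h ⊢
  rintro c (⟨x, hx, rfl⟩ | ⟨e, he, rfl⟩) hc'
  · rcases hc' with ⟨x', hx', h3⟩ | ⟨e', he', h3⟩
    · rw [Sum.inl.injEq] at h3
      subst h3
      exact h hx hx'
    · exact absurd h3 (by simp)
  · rcases hc' with ⟨x', hx', h3⟩ | ⟨e', he', h3⟩
    · exact absurd h3 (by simp)
    · rw [Sum.inr.injEq] at h3
      subst h3
      induction e using Sym2.ind with
      | _ x y => exact h (he x (Sym2.mem_mk_left x y)) (he' x (Sym2.mem_mk_left x y))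

theorem s_good (hbig : S_big) (hent : S_entropy) (hopen : S_open) (hind : S_indep) (hmeas : S_depmeas)
    (hdep : S_reach_dep) (hfin : S_int_fin) (hpm : S_shift_pm) (hG : S_shift_G) (hE : S_shift_E) :
    S_good := by
  classical
  intro n m a p β s hn hm h1 h2 hβ ha hp hap hθ
  set P := pm (prob (n := n) a p β s m) with hP
  set θ := P.real (Perc (EdI m) 0) with hθdef
  have ha' : (0 : ℝ) < a := ha
  have hp' : (0 : ℝ) < p := hp
  have hβ' : (0 : ℝ) < β := hβ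
  set q : ℝ := (a : ℝ) ^ (m + 1) * (p : ℝ) ^ m * (θ / 2) with hq
  have hq0 : 0 < q := by positivity
  obtain ⟨A, hA1, N1, hN1⟩ := an s h1 h2 β (q ^ 2 / 8) (q ^ 2 / 4) hβ' (by positivity) (by positivity) n m hn hm
  obtain ⟨N0, hN0⟩ := hbig n m a p β s hn hm h1 h2 hap A θ hθ le_rfl
  refine ⟨q ^ 2 / 4, q ^ 2 / 4, by positivity, by positivity, max N0 N1, fun N hN => ?_⟩
  have hN0' : N0 ≤ N := le_trans (le_max_left _ _) hN
  have hN1' : N1 ≤ N := le_trans (le_max_right _ _) hN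
  obtain ⟨hNpos, hMm, herr⟩ := hN1 N hN1'
  have hB := hN0 N hN0'
  set M := Mof s N with hM
  set K := M / m with hK
  have hult : ∀ (k : Fin n → Fin K) (i : Fin n), uu m K k i < M := fun k i => uu_lt (M := M) hm k i
  have hM1 : 1 ≤ M := by omega
  have hK1 : 1 ≤ K := (Nat.one_le_div_iff (by omega)).2 hMm
  set a0 := A * M with ha0
  have ha01 : 1 ≤ a0 := Nat.mul_pos hA1 hM1
  -- the boxes
  set B1 : Finset (V n) := BF n (-2 * N) (3 * N) (-2 * M) (3 * M) with hB1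
  set B2 : Finset (V n) := BF n (3 * N) (8 * N) (-2 * M) (3 * M) with hB2
  have hdisj : Disjoint B1 B2 := by
    rw [Finset.disjoint_left]
    intro x hx hx'
    rw [mem_BF] at hx hx'
    omega
  have hdisj' : Disjoint (B1 : Set (V n)) (B2 : Set (V n)) := by exact_mod_cast hdisj
  have hcard : B1.card = 5 * N * (5 * M) ^ n ∧ B2.card = 5 * N * (5 * M) ^ n := by
    rw [hB1, hB2, card_BF, card_BF]
    have e1 : (3 * (N : ℤ) - -2 * N).toNat = 5 * N := by omega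
    have e2 : (8 * (N : ℤ) - 3 * N).toNat = 5 * N := by omega
    have e3 : (3 * (M : ℤ) - -2 * M).toNat = 5 * M := by omega
    rw [e1, e2, e3]
    exact ⟨rfl, rfl⟩
  -- the pairs
  set PP : Finset (V n × V n) := Finset.univ.image (pr (n := n) m K N) with hPP
  have hPPcard : (PP.card : ℝ) = (K : ℝ) ^ n * (N : ℝ) ^ 2 := by
    rw [hPP, Finset.card_image_of_injective _ (pr_inj hm)]
    simp [sq]
  have hPPmem : ∀ x ∈ PP, ∃ (k : Fin n → Fin K) (t t' : Fin N), x = pr m K N (k, t, t') := by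
    intro x hx
    rw [hPP, Finset.mem_image] at hx
    obtain ⟨⟨k, t, t'⟩, _, rfl⟩ := hx
    exact ⟨k, t, t', rfl⟩
  -- lower bound for marks
  have hmark1 : ∀ (k : Fin n → Fin K) (t : Fin N),
      q ≤ P.real (Mk (EdI m) m a0 (B1 : Set (V n)) (((t : ℕ) : ℤ), uu m K k)) := by
    intro k t
    refine le_trans ?_ (Mk_prob hopen hn hdep hmeas hfin m a0 a p β s _ B1.finite_toSet (EdI m))
    rw [hq]
    apply mul_le_mul_of_nonneg_left _ (by positivity)
    refine hB.trans ?_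
    apply shift_big hpm hG hE hdep hmeas hfin m a p β s _ _ (CB (2 * N) (2 * M)) _ (CB_finite _ _) B1.finite_toSet _ a0
    · intro i; exact Dvd.intro _ rfl
    · intro v hv
      obtain ⟨hv1, hv2⟩ := hv
      rw [Finset.mem_coe, hB1, mem_BF]
      rw [abs_le] at hv1
      have ht := t.2
      simp only [Prod.fst_sub, Prod.snd_sub, Pi.sub_apply] at hv1 hv2
      push_cast at hv1 hv2
      refine ⟨by omega, fun i => ?_⟩
      have := hv2 i
      rw [abs_le] at this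
      have h5 := uu_nonneg m K k i
      have h6 := hult k i
      omega
  have hmark2 : ∀ (k : Fin n → Fin K) (t : Fin N),
      q ≤ P.real (Mk (EdI m) m a0 (B2 : Set (V n)) ((5 * (N : ℤ) + ((t : ℕ) : ℤ)), uu m K k)) := by
    intro k t
    refine le_trans ?_ (Mk_prob hopen hn hdep hmeas hfin m a0 a p β s _ B2.finite_toSet (EdI m))
    rw [hq]
    apply mul_le_mul_of_nonneg_left _ (by positivity)
    refine hB.trans ?_
    apply shift_big hpm hG hE hdep hmeas hfin m a p β s _ _ (CB (2 * N) (2 * M)) _ (CB_finite _ _) B2.finite_toSet _ a0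
    · intro i; exact Dvd.intro _ rfl
    · intro v hv
      obtain ⟨hv1, hv2⟩ := hv
      rw [Finset.mem_coe, hB2, mem_BF]
      rw [abs_le] at hv1
      have ht := t.2
      simp only [Prod.fst_sub, Prod.snd_sub, Pi.sub_apply] at hv1 hv2
      push_cast at hv1 hv2
      refine ⟨by omega, fun i => ?_⟩
      have := hv2 i
      rw [abs_le] at this
      have h5 := uu_nonneg m K k i
      have h6 := hult k i
      omega
  have hdep1 : ∀ (k : Fin n → Fin K) (t : Fin N),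
      DepOn (Mk (EdI m) m a0 (B1 : Set (V n)) (((t : ℕ) : ℤ), uu m K k)) (Int' (B1 : Set (V n))) := by
    intro k t
    apply Mk_dep hdep
    intro j hj
    rw [Finset.mem_coe, hB1]
    apply upv_mem _ _ j hj
    · have := t.2
      show -2 * (N : ℤ) ≤ ((t : ℕ) : ℤ) ∧ ((t : ℕ) : ℤ) < 3 * N
      omega
    · intro i
      have h5 := uu_nonneg m K k i
      have h6 := hult k i
      show -2 * (M : ℤ) ≤ uu m K k i ∧ uu m K k i + m < 3 * M
      omega
  have hdep2 : ∀ (k : Fin n → Fin K) (t : Fin N),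
      DepOn (Mk (EdI m) m a0 (B2 : Set (V n)) ((5 * (N : ℤ) + ((t : ℕ) : ℤ)), uu m K k))
        (Int' (B2 : Set (V n))) := by
    intro k t
    apply Mk_dep hdep
    intro j hj
    rw [Finset.mem_coe, hB2]
    apply upv_mem _ _ j hj
    · have := t.2
      show 3 * (N : ℤ) ≤ 5 * (N : ℤ) + ((t : ℕ) : ℤ) ∧ 5 * (N : ℤ) + ((t : ℕ) : ℤ) < 8 * N
      omega
    · intro i
      have h5 := uu_nonneg m K k i
      have h6 := hult k i
      show -2 * (M : ℤ) ≤ uu m K k i ∧ uu m K k i + m < 3 * M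
      omega
  -- the events
  let MM : V n × V n → Set (Cfg n) := fun x =>
    Mk (EdI m) m a0 (B1 : Set (V n)) x.1 ∩ Mk (EdI m) m a0 (B2 : Set (V n)) x.2
  let CN : V n × V n → Set (Cfg n) := fun x =>
    {ω | (G (EdI m) ω ((B1 : Set (V n)) ∪ B2)).Reachable x.1 x.2}
  let CC : V n × V n → Set (Cfg n) := fun x => MM x ∩ CN x
  let NC : V n × V n → Set (Cfg n) := fun x =>
    {ω | ω (Sum.inl x.1) = true ∧ ω (Sum.inl x.2) = true ∧
      a0 ≤ (cl (EdI m) ω (B1 : Set (V n)) x.1).ncard ∧ a0 ≤ (cl (EdI m) ω (B2 : Set (V n)) x.2).ncard ∧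
      ¬ (G (EdI m) ω ((B1 : Set (V n)) ∪ B2)).Reachable x.1 x.2}
  have hR : ((B1 : Set (V n)) ∪ B2).Finite := B1.finite_toSet.union B2.finite_toSet
  have hCNdep : ∀ x, DepOn (CN x) (Int' ((B1 : Set (V n)) ∪ B2)) := fun x => reach_dep' hdep _ _ _ _
  have hMMdep : ∀ x ∈ PP, DepOn (MM x) (Int' ((B1 : Set (V n)) ∪ B2)) := by
    intro x hx
    obtain ⟨k, t, t', rfl⟩ := hPPmem x hx
    apply DepOn.inter
    · exact DepOn.mono (hdep1 k t) (Int'_mono subset_union_left)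
    · exact DepOn.mono (hdep2 k t') (Int'_mono subset_union_right)
  have hCCmeas : ∀ x ∈ PP, MeasurableSet (CC x) := fun x hx =>
    meas_of_dep hmeas hfin hR (DepOn.inter (hMMdep x hx) (hCNdep x))
  have hPPB : ∀ x ∈ PP, x.1 ∈ B1 ∧ x.2 ∈ B2 ∧ s(x.1, x.2) ∈ (EdI m : Set (Sym2 (V n))) ∧
      1 - (prob (n := n) a p β s m (Sum.inr s(x.1, x.2)) : ℝ) ≤ Real.exp (-((β : ℝ) * (6 * (N : ℝ)) ^ (-s))) := by
    intro x hx
    obtain ⟨k, t, t', rfl⟩ := hPPmem x hx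
    have ht := t.2
    have ht' := t'.2
    have hu : ∀ i, -2 * (M : ℤ) ≤ uu m K k i ∧ uu m K k i < 3 * M := by
      intro i
      have h5 := uu_nonneg m K k i
      have h6 := hult k i
      omega
    refine ⟨?_, ?_, ?_⟩
    · rw [hB1, mem_BF]
      refine ⟨?_, hu⟩
      show -2 * (N : ℤ) ≤ ((t : ℕ) : ℤ) ∧ ((t : ℕ) : ℤ) < 3 * N
      omega
    · rw [hB2, mem_BF]
      refine ⟨?_, hu⟩
      show 3 * (N : ℤ) ≤ 5 * (N : ℤ) + ((t' : ℕ) : ℤ) ∧ 5 * (N : ℤ) + ((t' : ℕ) : ℤ) < 8 * N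
      omega
    · apply prob_long a p β s h1
      · rfl
      · intro i; exact Dvd.intro _ rfl
      · exact hNpos
      · show 2 ≤ (((t : ℕ) : ℤ) - (5 * (N : ℤ) + ((t' : ℕ) : ℤ))).natAbs
        omega
      · show (((t : ℕ) : ℤ) - (5 * (N : ℤ) + ((t' : ℕ) : ℤ))).natAbs ≤ 6 * N
        omega
  have hNCdep : ∀ x ∈ PP, DepOn (NC x) (Int' ((B1 : Set (V n)) ∪ B2)) := by
    intro x hx
    obtain ⟨hx1, hx2, _⟩ := hPPB x hx
    intro ω ω' h
    have e1 : ω (Sum.inl x.1) = ω' (Sum.inl x.1) := h _ (Or.inl ⟨x.1, Or.inl hx1, rfl⟩)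
    have e2 : ω (Sum.inl x.2) = ω' (Sum.inl x.2) := h _ (Or.inl ⟨x.2, Or.inr hx2, rfl⟩)
    have e3 : a0 ≤ (cl (EdI m) ω (B1 : Set (V n)) x.1).ncard ↔ a0 ≤ (cl (EdI m) ω' (B1 : Set (V n)) x.1).ncard :=
      (DepOn.mono (Bg_dep hdep (EdI m) a0 (B1 : Set (V n)) x.1) (Int'_mono subset_union_left)) ω ω' h
    have e4 : a0 ≤ (cl (EdI m) ω (B2 : Set (V n)) x.2).ncard ↔ a0 ≤ (cl (EdI m) ω' (B2 : Set (V n)) x.2).ncard :=
      (DepOn.mono (Bg_dep hdep (EdI m) a0 (B2 : Set (V n)) x.2) (Int'_mono subset_union_right)) ω ω' h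
    have e5 := hCNdep x ω ω' h
    show (_ ∧ _ ∧ _ ∧ _ ∧ _) ↔ (_ ∧ _ ∧ _ ∧ _ ∧ _)
    rw [e1, e2, e3, e4]
    have e6 : (¬ (G (EdI m) ω ((B1 : Set (V n)) ∪ B2)).Reachable x.1 x.2) ↔
        ¬ (G (EdI m) ω' ((B1 : Set (V n)) ∪ B2)).Reachable x.1 x.2 := not_congr e5
    rw [e6]
  have hNCmeas : ∀ x ∈ PP, MeasurableSet (NC x) := fun x hx => meas_of_dep hmeas hfin hR (hNCdep x hx)
  -- entropy estimate
  set X : ℕ := ⌊(q ^ 2 / 8) * (K : ℝ) ^ n * (N : ℝ) ^ 2⌋₊ with hX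
  have hENT : P.real {ω | ((2 * X : ℕ) : ℝ) < ((PP.filter fun x => ω ∈ NC x).card : ℝ)} ≤ q ^ 2 / 4 := by
    have h3 := hent n (prob (n := n) a p β s m) (EdI m) B1 B2 hdisj a0 ha01
      ((β : ℝ) * (6 * (N : ℝ)) ^ (-s)) (by positivity) X PP hPPB
    rw [hcard.1, hcard.2] at h3
    have h4 : P.real {ω | ((2 * X : ℕ) : ℝ) < ((PP.filter fun x => ω ∈ NC x).card : ℝ)} ≤
        2 ^ ((5 * N * (5 * M) ^ n + 5 * N * (5 * M) ^ n) / a0) *
          Real.exp (-((β : ℝ) * (6 * (N : ℝ)) ^ (-s) * X)) := by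
      refine le_trans (le_of_eq ?_) h3
      congr 1
      ext ω
      rw [Set.mem_setOf_eq, Set.mem_setOf_eq, Nat.cast_lt]
      have : (PP.filter fun x => ω ∈ NC x) = (PP.filter fun x => ω (Sum.inl x.1) = true ∧ ω (Sum.inl x.2) = true ∧
          a0 ≤ (cl (EdI m) ω (B1 : Set (V n)) x.1).ncard ∧ a0 ≤ (cl (EdI m) ω (B2 : Set (V n)) x.2).ncard ∧
          ¬ (G (EdI m) ω ((B1 : Set (V n)) ∪ B2)).Reachable x.1 x.2) := by
        apply Finset.filter_congr
        intro x _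
        exact Iff.rfl
      rw [this]
    refine h4.trans ?_
    exact herr
  -- sum over all pairs
  have hMMlow : ∀ x ∈ PP, q ^ 2 ≤ P.real (MM x) := by
    intro x hx
    obtain ⟨k, t, t', rfl⟩ := hPPmem x hx
    have h3 := hind _ (prob (n := n) a p β s m) _ _ _ _ (hdep1 k t) (hdep2 k t') (Int'_disjoint hdisj')
      (meas_of_dep hmeas hfin B1.finite_toSet (hdep1 k t)) (meas_of_dep hmeas hfin B2.finite_toSet (hdep2 k t'))
    have h4 : P.real (MM (pr m K N (k, t, t'))) =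
        P.real (Mk (EdI m) m a0 (B1 : Set (V n)) (((t : ℕ) : ℤ), uu m K k)) *
          P.real (Mk (EdI m) m a0 (B2 : Set (V n)) ((5 * (N : ℤ) + ((t' : ℕ) : ℤ)), uu m K k)) := by
      unfold Measure.real
      rw [← ENNReal.toReal_mul, ← h3]
      rfl
    rw [h4, sq]
    exact mul_le_mul (hmark1 k t) (hmark2 k t') hq0.le measureReal_nonneg
  have hcover : ∀ x ∈ PP, P.real (MM x) ≤ P.real (CC x) + P.real (NC x) := by
    intro x hx
    refine le_trans (measureReal_mono ?_ (measure_ne_top _ _)) (measureReal_union_le (CC x) (NC x))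
    intro ω hω
    by_cases hc : ω ∈ CN x
    · exact Or.inl ⟨hω, hc⟩
    · right
      obtain ⟨⟨hb1, hf1⟩, hb2, hf2⟩ := hω
      have e1 := hf1.1 0 (Nat.zero_le _)
      have e2 := hf2.1 0 (Nat.zero_le _)
      have e0 : ∀ y : V n, upv y ((0 : ℕ) : ℤ) = y := by
        intro y; unfold upv; simp
      rw [e0] at e1 e2
      exact ⟨e1, e2, hb1, hb2, hc⟩
  have hNCsum := markov P PP NC hNCmeas (((2 * X : ℕ) : ℝ)) (by positivity)
  have hXle : ((2 * X : ℕ) : ℝ) ≤ q ^ 2 / 4 * PP.card := by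
    have h3 : (X : ℝ) ≤ (q ^ 2 / 8) * (K : ℝ) ^ n * (N : ℝ) ^ 2 := Nat.floor_le (by positivity)
    rw [hPPcard]; push_cast
    linarith
  have hCCsum : q ^ 2 / 2 * PP.card ≤ ∑ x ∈ PP, P.real (CC x) := by
    have h3 : q ^ 2 * PP.card ≤ ∑ x ∈ PP, P.real (MM x) := by
      have := Finset.card_nsmul_le_sum PP (fun x => P.real (MM x)) (q ^ 2) hMMlow
      rw [nsmul_eq_mul] at this
      linarith
    have h4 : ∑ x ∈ PP, P.real (MM x) ≤ ∑ x ∈ PP, P.real (CC x) + ∑ x ∈ PP, P.real (NC x) := by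
      rw [← Finset.sum_add_distrib]
      exact Finset.sum_le_sum hcover
    have h5 : (PP.card : ℝ) * P.real {ω | ((2 * X : ℕ) : ℝ) < ((PP.filter fun x => ω ∈ NC x).card : ℝ)} ≤
        PP.card * (q ^ 2 / 4) := mul_le_mul_of_nonneg_left hENT (Nat.cast_nonneg _)
    linarith
  rw [hPP, Finset.sum_image (fun x _ y _ h => pr_inj hm h), ← hPP, hPPcard, Fintype.sum_prod_type] at hCCsum
  -- the good offset
  obtain ⟨k, -, hk⟩ : ∃ k ∈ (Finset.univ : Finset (Fin n → Fin K)), q ^ 2 / 2 * (N : ℝ) ^ 2 ≤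
      ∑ tt : Fin N × Fin N, P.real (CC (pr m K N (k, tt))) := by
    haveI : Nonempty (Fin K) := ⟨⟨0, hK1⟩⟩
    apply Finset.exists_le_of_sum_le Finset.univ_nonempty
    rw [Finset.sum_const, nsmul_eq_mul, Finset.card_univ, Fintype.card_fun, Fintype.card_fin, Fintype.card_fin]
    push_cast
    linarith
  refine ⟨uu m K k, fun i => ⟨Dvd.intro _ rfl, uu_nonneg m K k i, hult k i⟩, ?_⟩
  have hpm' : ∀ tt ∈ (Finset.univ : Finset (Fin N × Fin N)), MeasurableSet (CC (pr m K N (k, tt))) := by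
    intro tt _
    apply hCCmeas
    rw [hPP]
    exact Finset.mem_image_of_mem _ (Finset.mem_univ _)
  have hmk := markov P (Finset.univ : Finset (Fin N × Fin N)) (fun tt => CC (pr m K N (k, tt))) hpm'
    (q ^ 2 / 4 * (N : ℝ) ^ 2) (by positivity)
  have hNr : (0 : ℝ) < N := by exact_mod_cast hNpos
  have hlow : q ^ 2 / 4 ≤ P.real {ω | q ^ 2 / 4 * (N : ℝ) ^ 2 <
      ((Finset.univ.filter fun tt : Fin N × Fin N => ω ∈ CC (pr m K N (k, tt))).card : ℝ)} := by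
    have h3 := hk.trans hmk
    rw [Finset.card_univ, Fintype.card_prod, Fintype.card_fin] at h3
    push_cast at h3
    by_contra h4
    push Not at h4
    have h5 : (N : ℝ) * N * P.real {ω | q ^ 2 / 4 * (N : ℝ) ^ 2 <
      ((Finset.univ.filter fun tt : Fin N × Fin N => ω ∈ CC (pr m K N (k, tt))).card : ℝ)} <
        (N : ℝ) * N * (q ^ 2 / 4) := mul_lt_mul_of_pos_left h4 (by positivity)
    nlinarith
  refine hlow.trans (measureReal_mono ?_ (measure_ne_top _ _))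
  intro ω hω
  rw [Set.mem_setOf_eq, Finset.card_filter] at hω
  push_cast at hω
  rw [Fintype.sum_prod_type_right] at hω
  -- pigeonhole
  obtain ⟨t', -, ht'⟩ : ∃ t' ∈ (Finset.univ : Finset (Fin N)), q ^ 2 / 4 * N <
      ∑ t : Fin N, if ω ∈ CC (pr m K N (k, (t, t'))) then (1 : ℝ) else 0 := by
    apply Finset.exists_lt_of_sum_lt
    rw [Finset.sum_const, nsmul_eq_mul, Finset.card_univ, Fintype.card_fin]
    calc (N : ℝ) * (q ^ 2 / 4 * N) = q ^ 2 / 4 * (N : ℝ) ^ 2 := by ring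
      _ < _ := hω
  let T : Finset (Fin N) := Finset.univ.filter fun t => ω ∈ CC (pr m K N (k, (t, t')))
  have hT : q ^ 2 / 4 * N < (T.card : ℝ) := by
    have : (T.card : ℝ) = ∑ t : Fin N, if ω ∈ CC (pr m K N (k, (t, t'))) then (1 : ℝ) else 0 := by
      rw [Finset.card_filter]; push_cast; rfl
    rw [this]; exact ht'
  have hTne : T.Nonempty := by
    rw [← Finset.card_pos]
    have : (0 : ℝ) < (T.card : ℝ) := lt_trans (by positivity) hT
    exact_mod_cast this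
  obtain ⟨t0, ht0⟩ := hTne
  have hTm : ∀ t ∈ T, ω ∈ CC (pr m K N (k, (t, t'))) := fun t ht => (Finset.mem_filter.1 ht).2
  have hsub : ((B1 : Set (V n)) ∪ B2) ⊆ Bx (0 : V n) (-2 * N) (8 * N) (-2 * M) (3 * M) := by
    intro x hx
    have h3 : ∀ y : V n, y ∈ Bx (0 : V n) (-2 * N) (8 * N) (-2 * M) (3 * M) ↔
        (-2 * (N : ℤ) ≤ y.1 ∧ y.1 < 8 * N) ∧ ∀ i, -2 * (M : ℤ) ≤ y.2 i ∧ y.2 i < 3 * M := by
      intro y
      unfold Bx
      simp only [Set.mem_setOf_eq, Prod.fst_zero, Prod.snd_zero, Pi.zero_apply, zero_add]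
      tauto
    rw [h3]
    rcases hx with hx | hx
    · rw [Finset.mem_coe, hB1, mem_BF] at hx
      exact ⟨by omega, hx.2⟩
    · rw [Finset.mem_coe, hB2, mem_BF] at hx
      exact ⟨by omega, hx.2⟩
  have hz : (0 : V n) + ((0 : ℤ), uu m K k) = ((0 : ℤ), uu m K k) := zero_add _
  have hseg : ∀ t : Fin N, ((((t : ℕ) : ℤ), uu m K k) : V n) ∈ seg ((0 : V n) + ((0 : ℤ), uu m K k)) N := by
    intro t
    unfold seg
    rw [Finset.mem_map]
    refine ⟨(t : ℕ), Finset.mem_range.2 t.2, ?_⟩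
    rw [hz]
    simp
  refine ⟨((((t0 : ℕ) : ℤ), uu m K k) : V n), hseg t0, ?_⟩
  refine hT.le.trans ?_
  have hcardle : T.card ≤ cnt (EdI m) m N ω ((0 : V n) + ((0 : ℤ), uu m K k))
      (Bx (0 : V n) (-2 * N) (8 * N) (-2 * M) (3 * M)) ((((t0 : ℕ) : ℤ), uu m K k) : V n) := by
    unfold cnt
    apply Finset.card_le_card_of_injOn (fun t : Fin N => ((((t : ℕ) : ℤ), uu m K k) : V n))
    · intro t ht
      rw [Finset.mem_coe, Finset.mem_filter]
      obtain ⟨⟨⟨_, hf1⟩, _⟩, hc⟩ := hTm t ht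
      obtain ⟨_, hc0⟩ := hTm t0 ht0
      refine ⟨hseg t, ?_, hf1⟩
      have h3 : (G (EdI m) ω ((B1 : Set (V n)) ∪ B2)).Reachable ((((t0 : ℕ) : ℤ), uu m K k) : V n)
          ((((t : ℕ) : ℤ), uu m K k) : V n) := SimpleGraph.Reachable.trans hc0 (SimpleGraph.Reachable.symm hc)
      exact reach_mono hsub (fun _ h => h) h3
    · intro t _ t2 _ h
      have h3 : ((t : ℕ) : ℤ) = ((t2 : ℕ) : ℤ) := congrArg Prod.fst h
      apply Fin.ext
      exact_mod_cast h3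
  exact_mod_cast hcardle

end

end Pool.Agent.W11.PC
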